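import Pool.Agent.H63.TC.Tools

/-!
# Project TC: module Z2 (growth of the second `τ`-component along the puncture)
-/

open Complex Metric Set Filter Topology

namespace Pool.Agent.H63.TC

lemma z2_cay {τ : ℂ} (h : 1 ≤ τ.im) :
    cay ((τ.re : ℂ) + I) ((((τ.im - 1) / (τ.im + 1) : ℝ)) : ℂ) = τ := by
  unfold cay
  have h1 : (τ.im : ℂ) + 1 ≠ 0 := by
    have : ((τ.im + 1 : ℝ) : ℂ) ≠ 0 := by
      rw [Complex.ofReal_ne_zero]; linarith
    simpa using this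
  have h2 : (starRingEnd ℂ) ((τ.re : ℂ) + I) = (τ.re : ℂ) - I := by
    simp [sub_eq_add_neg]
  rw [h2]
  push_cast
  have h3 : (1 : ℂ) - ((τ.im : ℂ) - 1) / ((τ.im : ℂ) + 1) = 2 / ((τ.im : ℂ) + 1) := by
    field_simp; ring
  rw [h3]
  have h4 : τ = τ.re + τ.im * I := (re_add_im τ).symm
  rw [div_eq_iff (div_ne_zero two_ne_zero h1)]
  nth_rewrite 5 [h4]
  field_simp
  ring

/-- **Z2.** -/
theorem z2 (hLiw : LiwStmt) (hBpl : BplStmt) (hGro : GroStmt) (hLmd : LmdStmt)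
    (hZm1 : Zm1Stmt) : Z2Stmt := by
  intro V _ _ A W J ρ C b S hJ hb h1 h2 hS hSb
  obtain ⟨ε, hε, hεb⟩ : ∃ ε > 0, ∀ x : ℝ, |x - b| ≤ ε → ¬ ∃ n : ℤ, x = n := by
    have hopen : IsOpen {x : ℝ | ∃ m : ℤ, x = m}ᶜ := isClosed_int.isOpen_compl
    obtain ⟨r, hr, hrb⟩ := Metric.isOpen_iff.1 hopen b (by rintro ⟨m, hm⟩; exact hb m hm)
    refine ⟨r / 2, by linarith, fun x hx hxn => ?_⟩
    have : x ∈ ball b r := by rw [mem_ball, Real.dist_eq]; linarith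
    exact hrb this hxn
  obtain ⟨ρ1, hρ1⟩ := h2 ε hε
  set Z : Set ℂ := {z | z.re < min ρ ρ1 ∧ 0 ≤ z.im ∧ z.im ≤ 2 * Real.pi} with hZdef
  have hZρ : ∀ z ∈ Z, z.re < ρ := fun z hz => lt_of_lt_of_le hz.1 (min_le_left _ _)
  have hZρ1 : ∀ z ∈ Z, z.re < ρ1 := fun z hz => lt_of_lt_of_le hz.1 (min_le_right _ _)
  have hZconv : Convex ℝ Z := by
    have e : Z = {z : ℂ | z.re < min ρ ρ1} ∩ ({z : ℂ | 0 ≤ z.im} ∩ {z : ℂ | z.im ≤ 2 * Real.pi}) := by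
      ext z; rfl
    rw [e]
    exact (convex_halfSpace_re_lt _).inter
      ((convex_halfSpace_im_ge _).inter (convex_halfSpace_im_le _))
  set z0 : ℂ := ((min ρ ρ1 - 1 : ℝ) : ℂ) with hz0def
  have hz0 : z0 ∈ Z := by
    refine ⟨?_, ?_, ?_⟩
    · rw [hz0def, ofReal_re]; linarith
    · rw [hz0def, ofReal_im]
    · rw [hz0def, ofReal_im]; positivity
  set c : ℂ → ℝ × ℝ := fun z => (ca (W.W (J z)), cb (W.W (J z))) with hcdef
  set T : ℂ → ℂ := fun z => (W.W (J z)).1 with hTdef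
  set C0 : Set (ℝ × ℝ) := Icc (1 - ε) (1 + ε) ×ˢ Icc (b - ε) (b + ε) with hC0def
  have hc : ∀ z ∈ Z, c z ∈ C0 := by
    intro z hz
    obtain ⟨k1, k2⟩ := hρ1 z (hZρ1 z hz) (hZρ z hz) hz.2.1 hz.2.2
    rw [abs_lt] at k1 k2
    refine ⟨⟨?_, ?_⟩, ⟨?_, ?_⟩⟩
    · simp only [hcdef, ca]; linarith [k1.1]
    · simp only [hcdef, ca]; linarith [k1.2]
    · simp only [hcdef, cb]; linarith [k2.1]
    · simp only [hcdef, cb]; linarith [k2.2]
  have hTpos : ∀ z, 0 < (T z).im := fun z => (W.mem (J z)).1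
  have hg : ∀ s ∈ C0 ×ˢ {τ : ℂ | 0 < τ.im}, ((s.2, (s.1.1 : ℂ) * s.2 + s.1.2) : ℂ × ℂ) ∈ YY := by
    rintro ⟨⟨x, y⟩, τ⟩ ⟨⟨hx, hy⟩, hτ⟩
    refine leaf_mem_YY hτ (fun h => ?_)
    refine hεb y ?_ h.2
    have hy1 := hy.1
    have hy2 := hy.2
    simp only at hy1 hy2
    rw [abs_le]; constructor <;> linarith
  have hgc : Continuous (fun s : (ℝ × ℝ) × ℂ => ((s.2, (s.1.1 : ℂ) * s.2 + s.1.2) : ℂ × ℂ)) := by
    fun_prop
  obtain ⟨LL, hLLc, hLLW, hLL0⟩ := hLiw V A W ((ℝ × ℝ) × ℂ) (C0 ×ˢ {τ : ℂ | 0 < τ.im})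
    (fun s => (s.2, (s.1.1 : ℂ) * s.2 + s.1.2)) (c z0, T z0) (J z0)
    (((convex_Icc _ _).prod (convex_Icc _ _)).prod convex_upperC)
    ⟨hc z0 hz0, hTpos z0⟩ hgc.continuousOn hg (by
      refine Prod.ext rfl ?_
      exact (ca_cb (q := W.W (J z0)) (hTpos z0)).symm)
  -- uniqueness
  have hJZ : ContinuousOn J Z := hJ.mono (fun z hz => hZρ z hz)
  have hWJ : ContinuousOn (fun z => W.W (J z)) Z := W.cont.comp_continuousOn hJZ
  have hcT : ContinuousOn (fun z => (c z, T z)) Z := by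
    refine ContinuousOn.prodMk (ContinuousOn.prodMk ?_ ?_) ?_
    · exact continuousOn_ca.comp hWJ (fun z _ => hTpos z)
    · exact continuousOn_cb.comp hWJ (fun z _ => hTpos z)
    · exact continuous_fst.comp_continuousOn hWJ
  have hmaps : ∀ z ∈ Z, (c z, T z) ∈ C0 ×ˢ {τ : ℂ | 0 < τ.im} := fun z hz => ⟨hc z hz, hTpos z⟩
  have hEq : ∀ z ∈ Z, J z = LL (c z, T z) := by
    refine A.eqOn_of_E (f := J) (g := fun z => LL (c z, T z)) hZconv.isPreconnected hJZ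
      (hLLc.comp hcT hmaps) ?_ hz0 hLL0.symm
    intro z hz
    have e1 := hLLW _ (hmaps z hz)
    have e2 : W.W (LL (c z, T z)) = W.W (J z) := by
      rw [e1]
      exact Prod.ext rfl (ca_cb (q := W.W (J z)) (hTpos z))
    rw [← W.Phi_W, ← W.Phi_W, e2]
  -- the compact set
  have hcayc : ContinuousOn (fun q : ℝ × ℂ => cay ((q.1 : ℂ) + I) q.2)
      (Icc (-C) C ×ˢ closedBall (0 : ℂ) (1 / 2)) := by
    unfold cay
    refine ContinuousOn.div ?_ (by fun_prop) ?_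
    · have : Continuous (fun q : ℝ × ℂ => ((q.1 : ℂ) + I) - (starRingEnd ℂ) ((q.1 : ℂ) + I) * q.2) := by
        have h : Continuous (fun z : ℂ => (starRingEnd ℂ) z) := Complex.continuous_conj
        fun_prop
      exact this.continuousOn
    · rintro ⟨x, z⟩ ⟨-, hz⟩
      refine one_sub_ne_zero ?_
      rw [mem_closedBall, dist_zero_right] at hz
      rw [mem_ball, dist_zero_right]
      simp only at hz ⊢
      linarith
  set Q : Set ℂ := (fun q : ℝ × ℂ => cay ((q.1 : ℂ) + I) q.2) ''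
    (Icc (-C) C ×ˢ closedBall (0 : ℂ) (1 / 2)) with hQdef
  have hQc : IsCompact Q := (isCompact_Icc.prod (isCompact_closedBall _ _)).image_of_continuousOn hcayc
  have hQpos : Q ⊆ {τ : ℂ | 0 < τ.im} := by
    rintro _ ⟨⟨x, z⟩, ⟨-, hz⟩, rfl⟩
    refine hZm1.2.2.2.2.2.1 _ _ ?_ ?_
    · simp
    · rw [mem_closedBall, dist_zero_right] at hz
      rw [mem_ball, dist_zero_right]
      simp only at hz ⊢
      linarith
  set K : Set V := LL '' (C0 ×ˢ Q) with hKdef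
  have hKc : IsCompact K :=
    (((isCompact_Icc.prod isCompact_Icc).prod hQc)).image_of_continuousOn
      (hLLc.mono (prod_mono Subset.rfl hQpos))
  obtain ⟨M0, hM0⟩ := hSb K hKc
  obtain ⟨B, hB⟩ := hKc.exists_bound_of_continuousOn
    (f := fun p => (deriv lam (W.W p).1)⁻¹)
    ((W.continuous_dlam hLmd).inv₀ (W.dlam_ne hLmd)).continuousOn
  have hhh : ∀ ξ ∈ S, ∀ p ∈ K, ‖W.hh ξ p‖ ≤ |M0| * |B| := by
    intro ξ hξ p hp
    have e1 : ‖(ξ p).1‖ ≤ |M0| := ((norm_fst_le (ξ p)).trans (hM0 ξ hξ p hp)).trans (le_abs_self _)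
    have e2 : ‖(deriv lam (W.W p).1)⁻¹‖ ≤ |B| := (hB p hp).trans (le_abs_self _)
    unfold Ell.hh
    rw [div_eq_mul_inv, norm_mul]
    exact mul_le_mul e1 e2 (norm_nonneg _) (abs_nonneg _)
  refine ⟨45 * (|M0| * |B|), ρ1, ?_⟩
  intro ξ hξ z hz1 hz2 hz3 hz4
  have hz : z ∈ Z := ⟨lt_min hz2 hz1, hz3, hz4⟩
  obtain ⟨hT1, hTC⟩ := h1 z hz2 hz3 hz4
  have hLc : ContinuousOn (fun τ => LL (c z, τ)) {τ : ℂ | 0 < τ.im} := by
    refine hLLc.comp (by fun_prop) (fun τ hτ => ⟨hc z hz, hτ⟩)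
  have hbp := hBpl V A W ξ (fun τ => LL (c z, τ)) (c z).1 (c z).2 (((T z).re : ℂ) + I) (hS ξ hξ)
    (by simp) hLc (fun τ hτ => hLLW (c z, τ) ⟨hc z hz, hτ⟩)
  set f : ℂ → ℂ := fun w => W.hh ξ (LL (c z, cay (((T z).re : ℂ) + I) w)) * (1 - w) ^ 2 /
    (2 * I * ((((T z).re : ℂ) + I).im : ℂ)) with hfdef
  have him : (((T z).re : ℂ) + I).im = 1 := by simp
  have hnorm : ∀ w, ‖f w‖ = ‖W.hh ξ (LL (c z, cay (((T z).re : ℂ) + I) w))‖ * ‖1 - w‖ ^ 2 / 2 := by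
    intro w
    simp only [hfdef, him]
    rw [norm_div, norm_mul, norm_pow, norm_mul, norm_mul]
    simp
  have hgr := hGro f (9 / 8 * (|M0| * |B|)) hbp (by
    intro w hw
    rw [hnorm w]
    have hmem : LL (c z, cay (((T z).re : ℂ) + I) w) ∈ K := by
      refine ⟨_, ⟨hc z hz, ⟨((T z).re, w), ⟨?_, ?_⟩, rfl⟩⟩, rfl⟩
      · exact abs_le.1 hTC
      · rw [mem_closedBall, dist_zero_right]; exact hw
    have e1 := hhh ξ hξ _ hmem
    have e2 : ‖1 - w‖ ≤ 3 / 2 := by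
      have := norm_sub_le (1 : ℂ) w
      rw [norm_one] at this
      linarith
    have e3 : ‖1 - w‖ ^ 2 ≤ (3 / 2) ^ 2 := pow_le_pow_left₀ (norm_nonneg _) e2 2
    have e4 : ‖W.hh ξ (LL (c z, cay (((T z).re : ℂ) + I) w))‖ * ‖1 - w‖ ^ 2 ≤
        (|M0| * |B|) * (3 / 2) ^ 2 :=
      mul_le_mul e1 e3 (by positivity) (by positivity)
    linarith)
  set Y : ℝ := (T z).im with hY
  have hY1 : 1 ≤ Y := hT1
  have hw0 : 0 ≤ (Y - 1) / (Y + 1) := div_nonneg (by linarith) (by linarith)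
  have hw1 : (Y - 1) / (Y + 1) < 1 := by rw [div_lt_one (by linarith)]; linarith
  have hwn : ‖(((Y - 1) / (Y + 1) : ℝ) : ℂ)‖ = (Y - 1) / (Y + 1) := by
    rw [Complex.norm_real, Real.norm_of_nonneg hw0]
  have hfin := hgr ((((Y - 1) / (Y + 1) : ℝ)) : ℂ) (by
    rw [mem_ball, dist_zero_right, hwn]; exact hw1)
  rw [hnorm, z2_cay (τ := T z) hT1, ← hEq z hz, hwn] at hfin
  have h1w : ‖(1 : ℂ) - (((Y - 1) / (Y + 1) : ℝ) : ℂ)‖ = 2 / (Y + 1) := by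
    have : (1 : ℂ) - (((Y - 1) / (Y + 1) : ℝ) : ℂ) = ((2 / (Y + 1) : ℝ) : ℂ) := by
      have : (1 : ℝ) - (Y - 1) / (Y + 1) = 2 / (Y + 1) := by
        have : Y + 1 ≠ 0 := by linarith
        field_simp; ring
      rw [← this]; push_cast; ring
    rw [this, Complex.norm_real, Real.norm_of_nonneg (by positivity)]
  have h1w' : (1 : ℝ) - (Y - 1) / (Y + 1) = 2 / (Y + 1) := by
    have : Y + 1 ≠ 0 := by linarith
    field_simp; ring
  rw [h1w, h1w'] at hfin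
  have hYp : 0 < Y + 1 := by linarith
  set Mm := |M0| * |B| with hMm
  have hMm0 : 0 ≤ Mm := by positivity
  set X := ‖W.hh ξ (J z)‖ with hX
  have h5 : X * (2 / (Y + 1)) ^ 2 / 2 = 2 * X / (Y + 1) ^ 2 := by
    field_simp
  have h6 : 20 * (9 / 8 * Mm) / (2 / (Y + 1)) = 45 / 4 * Mm * (Y + 1) := by
    field_simp; ring
  rw [h5, h6, div_le_iff₀ (by positivity)] at hfin
  have h7 : (Y + 1) ^ 3 ≤ (2 * Y) ^ 3 := pow_le_pow_left₀ hYp.le (by linarith) 3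
  have h8 : 2 * X ≤ 45 / 4 * Mm * (Y + 1) ^ 3 := by
    calc 2 * X ≤ 45 / 4 * Mm * (Y + 1) * (Y + 1) ^ 2 := hfin
      _ = 45 / 4 * Mm * (Y + 1) ^ 3 := by ring
  have h9 : 45 / 4 * Mm * (Y + 1) ^ 3 ≤ 45 / 4 * Mm * (2 * Y) ^ 3 :=
    mul_le_mul_of_nonneg_left h7 (by positivity)
  have h10 : 45 / 4 * Mm * (2 * Y) ^ 3 = 2 * (45 * Mm * Y ^ 3) := by ring
  have : 2 * X ≤ 2 * (45 * Mm * Y ^ 3) := by rw [← h10]; exact h8.trans h9
  linarith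

end Pool.Agent.H63.TC
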